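import Pool.Agent.H88.Gh3

open Pool.Agent.H88.Gh in
theorem Pool.Agent.Results.MP_f735f2_an.No.result :
    ∃ (X : Type) (_ : NormedAddCommGroup X) (_ : NormedSpace ℝ X), CompleteSpace X ∧
      UDS X ∧ ¬ HomS X :=
  ⟨XX, inferInstance, inferInstance, (Submodule.isClosed_topologicalClosure _).completeSpace_coe,
    uds, not_homs⟩
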